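import Pool.Agent.Helper17.QD.Glue
import Pool.Agent.Helper20.QP.St2
import Pool.Agent.Helper86.QA.St5

/-!
# Project QD (MP_d112a4_gt): glue, second file: extension of quasiconformal maps to the circle
-/

set_option autoImplicit false

open Filter Topology Matrix Set Metric MeasureTheory
open scoped ComplexConjugate ComplexOrder ENNReal

namespace Pool.Agent.Helper17.QD

open Pool.Agent.Helper35.PM
open Pool.Agent.Helper68.QC (nq Bel InvB Intw)
open Pool.Agent.Helper20.QD (Fuch cj IsSU D DD SS dz dzb mob den)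

/-- EXT (about 250 lines)
(A `C¹` quasiconformal diffeomorphism of the open disc extends to the closed disc.)
Proof.  (1) Coefficient: `μ z = dzb E z / dz E z` for `‖z‖ < 1`, `μ z = 0` for `‖z‖ = 1`,
`μ z = conj (μ (1/conj z)) z² / conj z²` for `‖z‖ > 1`; measurable (continuous on the open disc, the second
formula composes with `z ↦ 1/conj z`), bounded by `k`, and it satisfies the hypothesis of
StSYC: `μ (1/conj z) * conj z ^ 2 = conj (μ z) * z ^ 2` for `z ≠ 0` (three cases).
(2) `W = nq μ`: StSYC gives `W (1/conj z) = 1/conj (W z)`.  If `‖z‖ = 1` then `1/conj z = z`, so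
`‖W z‖ = 1`.  If `‖W z‖ = 1` (so `z ≠ 0`) then `W (1/conj z) = W z`, `1/conj z = z`, `‖z‖ = 1`.  `W '' D` is
connected, contains `W 0 = 0` and does not meet the circle, so `W` maps `D` into `D`; for `‖z‖ > 1`
`W z = 1/conj (W (1/conj z))` has modulus `> 1`.  `W` is onto, so it maps `D` onto `D`, `SS` onto `SS`.
(3) `E` is `C¹` on `D` with `dzb E = μ dz E`: `Sol μ D E` (`wd_smoothOn` in
Pool/Agent/Helper68/QC/Cal.lean; `dz`, `dzb` of Helper20.QD and of Helper68.QC are the same
functions).  StFAC: `g ζ = E (W.symm ζ)` is holomorphic on `W '' D = D`, and it is a bijection `D → D`.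
(4) `g` is a disc automorphism: choose `N ∈ SU(1,1)` with `mob N (g 0) = 0` (hSUB), `h = mob N ∘ g` is a
holomorphic bijection of `D`, `h 0 = 0`; its inverse is holomorphic (hRIJ); the Schwarz lemma for `h`
and for its inverse gives `‖h ζ‖ = ‖ζ‖`, so `h ζ = c ζ`, `‖c‖ = 1` (the holomorphic function
`h ζ/ζ`, value `deriv h 0` at `0`, has constant modulus on `D`, for instance maximum principle
`Complex.eqOn_of_isPreconnected_of_isMaxOn_norm`).  So `E z = mob N⁻¹ (c * W z)` for `z ∈ D`.
(5) `E' z = mob N⁻¹ (c * W z)` for all `z`: continuous on `DD`, a bijection of `D` and of `SS` (hSUB), equal to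
`E` on the open set `D`, so it is `C¹` there with the same `dz`, `dzb`.
Hypotheses: hSUB hRIJ (Helper20.QD), and SYC FAC (Helper68.QC). -/
def StEXT : Prop := ∀ (k : ℝ) (E : ℂ → ℂ), 0 ≤ k → k < 1 → BijOn E D D → ContDiffOn ℝ 1 E D →
  (∀ z ∈ D, dz E z ≠ 0 ∧ ‖dzb E z‖ ≤ k * ‖dz E z‖) → ∃ E' : ℂ → ℂ, QcE k E' ∧ ∀ z ∈ D, E' z = E z

/-- EXC (about 60 lines)
(Equivariance on the closed disc by continuity.)
Proof.  For `γ` both sides of `E (mob (σ γ) z) = mob (τ γ) (E z)` are continuous on `DD` (`mob (σ γ)` maps `DD`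
to `DD` and is continuous there because the denominator has no zero on `DD`, hSUB; `E` maps `DD` to
`DD`), they agree on `D`, and `DD = closure D` (`closure_ball`).
Hypotheses: hSUB. -/
def StEXC : Prop := ∀ (Γ : Type) [Group Γ] (σ τ : Γ →* SL) (k : ℝ) (E : ℂ → ℂ), Fuch σ → Fuch τ →
  QcE k E → (∀ γ, ∀ z ∈ D, E (mob (σ γ) z) = mob (τ γ) (E z)) → Cnj σ τ E

/-- MUX (about 120 lines)
(From Mumford compactness, helper20's form, to `StMU0`.)
Proof.  `Γ = SurfaceGroup g` is torsion free (hTFR).  `A0 = ar2 F` where `F` is a fundamental domain of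
`s0` (hAFD); every `Fuch σ` has a fundamental domain `F0` (hAFD), with `ar2 F0 = A0` (hAIN);
`QP.FD σ F0` is `FDOn (ad σ) (ball 0 1) F0` by unfolding, `ar2` is the integral in the statement.
`Thk ε σ` implies `QP.Thick σ ε`: `σ γ ∈ SU(1,1)`, so the trace is real and
`sh (σ γ) = ‖trace‖²/4 - 1 ≥ (2+ε)²/4 - 1 ≥ ε`.  hMUM gives `k`, and for `σ` it gives `φ, σ', E`; `σ' = σ`
or `σ' = cc σ`; the last clause says that `E` intertwines `pre φ s0` and `σ'` on `D`; hEXT and hEXC
(`Fuch (pre φ s0)` by hFPC) extend this to `DD`.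
Hypotheses: hMUM : QP.StMUM, hAFD : QA.StAFD, hAIN : QA.StAIN, hTFR : QA.StTFR, hFPC hEXT
hEXC. -/
def StMUX : Prop := Pool.Agent.Helper20.QP.StMUM → Pool.Agent.Helper86.QA.StAFD →
  Pool.Agent.Helper86.QA.StAIN → Pool.Agent.Helper86.QA.StTFR → StFPC → StEXT → StEXC → StMU0

end Pool.Agent.Helper17.QD
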