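import Pool.Agent.Helper17.QD.GlueFin
import Pool.Agent.Helper17.QD.Glue2
import Pool.Agent.Helper20.QD.AsmB
import Pool.Agent.Helper68.QCA.Main
import Pool.Agent.Helper86.QA.All2
import Pool.Agent.Helper99.QL.M_FAI
import Pool.Agent.Helper99.QL.M_MVD
import Pool.Agent.Helper22.QL.M_QFS
import Pool.Agent.Helper22.QL.M_MOV
import Pool.Agent.Helper84.QL.M_TMI
import Pool.Agent.Helper74.QL.M_FUF
import Pool.Agent.Helper14.QL.M_FPC
import Pool.Agent.Helper81.QL.M_IQP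
import Pool.Agent.Helper42.QL.M_IQC
import Pool.Agent.Helper75.QL.M_NMP
import Pool.Agent.Helper89.QL.M_NMC
import Pool.Agent.Helper3.QL.M_OPR
import Pool.Agent.Helper44.QL.M_PRE
import Pool.Agent.Helper40.QL.M_CCJ
import Pool.Agent.Helper28.QL.M_NUC
import Pool.Agent.Helper82.QL.M_SPC
import Pool.Agent.Helper94.QL.M_FUS
import Pool.Agent.Helper70.QL.M_BER
import Pool.Agent.Helper79.QL.M_INC
import Pool.Agent.Helper34.QL.M_NBC
import Pool.Agent.Helper60.QL.M_QIN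
import Pool.Agent.Helper97.QL.M_NRM
import Pool.Agent.Helper66.QL.M_MVS
import Pool.Agent.Helper33.QL.M_MUM
import Pool.Agent.Helper3.QL.M_EXC
import Pool.Agent.Helper79.QL.M_EXT
import Pool.Agent.Helper89.QL.M_MUX

/-!
# Project QD (MP_d112a4_gt): assembly of the glue modules.

`fin_of`: the final theorem from what is still to come (`StTQF`, `StAIN`, `StAFD`, `StMUM` of part P, stage 1
`StST1`, stage 2 `StOPN`).
-/

set_option autoImplicit false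

namespace Pool.Agent.Helper17.QD

open Pool.Agent.Helper35.PM
open Pool.Agent.Helper68
open Pool.Agent.Helper20.QD (b_SUB b_RIJ b_WNO)

theorem g_FAI : StFAI := Pool.Agent.Helper99.QL.hFAI
theorem g_TMI : StTMI := Pool.Agent.Helper84.QL.hTMI
theorem g_FUF : StFUF := Pool.Agent.Helper74.QL.hFUF
theorem g_FPC : StFPC := Pool.Agent.Helper14.QL.hFPC b_SUB
theorem g_IQP : StIQP := Pool.Agent.Helper81.QL.hIQP
theorem g_IQC : StIQC := Pool.Agent.Helper42.QL.hIQC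
theorem g_NMP : StNMP := Pool.Agent.Helper75.QL.hNMP
theorem g_NMC : StNMC := Pool.Agent.Helper89.QL.hNMC
theorem g_OPR : StOPR := Pool.Agent.Helper3.QL.hOPR
theorem g_PRE : StPRE := Pool.Agent.Helper44.QL.hPRE g_OPR g_IQP g_NMP
theorem g_CCJ : StCCJ := Pool.Agent.Helper40.QL.hCCJ g_OPR g_IQC g_NMC
theorem g_NUC : StNUC := Pool.Agent.Helper28.QL.hNUC QCA.EX QCA.UNI
theorem g_SPC : StSPC := Pool.Agent.Helper82.QL.hSPC g_FPC g_NUC
theorem g_FUS : StFUS := Pool.Agent.Helper94.QL.hFUS QCA.UNI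
theorem g_BER : StBER := Pool.Agent.Helper70.QL.hBER b_WNO b_RIJ b_SUB QCA.WSL QCA.INB g_TMI
theorem g_INC : StINC := Pool.Agent.Helper79.QL.hINC QCA.EX QCA.PRE QCA.POS QCA.CVM
theorem g_NBC : StNBC :=
  Pool.Agent.Helper34.QL.hNBC b_SUB g_FPC QCA.EX QCA.UNI QCA.PRE QCA.POS QCA.EQV QCA.ITW
theorem g_QIN : StQIN := Pool.Agent.Helper60.QL.hQIN b_SUB
theorem g_NRM : StNRM := Pool.Agent.Helper97.QL.hNRM b_SUB g_TMI QCA.RFL QCA.WSL QCA.INB
theorem g_MVS : StMVS := Pool.Agent.Helper66.QL.hMVS g_FPC g_INC QCA.EX QCA.UNI QCA.CMP QCA.NUL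
theorem g_EXC : StEXC := Pool.Agent.Helper3.QL.hEXC b_SUB
theorem g_EXT : StEXT := Pool.Agent.Helper79.QL.hEXT b_SUB b_RIJ QCA.EX QCA.SYC QCA.FAC

theorem g_QFS (hTQF : Pool.Agent.Helper86.QA.StTQF) : StQFS :=
  Pool.Agent.Helper22.QL.hQFS g_FAI hTQF Pool.Agent.Helper86.QA.tTFR

theorem g_MVD (hTQF : Pool.Agent.Helper86.QA.StTQF) : StMVD :=
  Pool.Agent.Helper99.QL.hMVD (g_QFS hTQF) QCA.REP f1_ qf_

theorem g_MOV (hTQF : Pool.Agent.Helper86.QA.StTQF) : StMOV :=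
  Pool.Agent.Helper22.QL.hMOV b_SUB g_NRM (g_MVD hTQF) g_MVS g_NBC sy_

theorem g_MUM (hMUM : Pool.Agent.Helper20.QP.StMUM) (hAFD : Pool.Agent.Helper86.QA.StAFD)
    (hAIN : Pool.Agent.Helper86.QA.StAIN) : StMUM :=
  Pool.Agent.Helper33.QL.hMUM (Pool.Agent.Helper89.QL.hMUX hMUM hAFD hAIN
    Pool.Agent.Helper86.QA.tTFR g_FPC g_EXT g_EXC) g_QIN g_FPC

theorem fin_of (hTQF : Pool.Agent.Helper86.QA.StTQF) (hMUM : Pool.Agent.Helper20.QP.StMUM)
    (hAFD : Pool.Agent.Helper86.QA.StAFD) (hAIN : Pool.Agent.Helper86.QA.StAIN)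
    (hST1 : StST1) (hOPN : StOPN) : StFIN :=
  fin (g_QFS hTQF) g_BER g_FUF g_FUS g_PRE g_CCJ g_FPC g_SPC (g_MOV hTQF) hST1 hOPN
    (g_MUM hMUM hAFD hAIN)

end Pool.Agent.Helper17.QD
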