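import Pool.Agent.Helper17.QD.Asm
import Pool.Agent.Helper35.PQF.All
import Pool.Agent.Helper86.QA.All3
import Pool.Agent.Helper20.QP.AsmP

/-!
# Project QD (MP_d112a4_gt): the final theorem from stage 1, stage 2, `StAIN`, `StAFD`
-/

set_option autoImplicit false

namespace Pool.Agent.Helper17.QD

open Pool.Agent.Helper35.PM
open Pool.Agent.Helper68.QC (nq)
open scoped ENNReal

/-- The statement of the hand-in. -/
def Goal (g : ℕ) : Prop :=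
    (∃ ρ : SurfaceGroup g →* SL, IsQF ρ ∧ IsFuchsian ρ) ∧
    (∃ U : (SurfaceGroup g →* SL) → Ultrafilter ℝ, ∀ ρ, IsQF ρ → Adapted (U ρ) ρ) ∧
    ∃ D : ℝ, 0 < D ∧ ∀ U : (SurfaceGroup g →* SL) → Ultrafilter ℝ,
      (∀ ρ, IsQF ρ → Adapted (U ρ) ρ) → ∀ ρ : SurfaceGroup g →* SL, IsQF ρ →
        ∃ σ : SurfaceGroup g →* SL, IsQF σ ∧ IsFuchsian σ ∧
          pressureDist U ρ σ ≤ ENNReal.ofReal D

theorem goal_of (hAIN : Pool.Agent.Helper86.QA.StAIN) (hAFD : Pool.Agent.Helper86.QA.StAFD)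
    (hST1 : StST1) (hOPN : StOPN) (g : ℕ) (hg : 2 ≤ g) : Goal g := by
  obtain ⟨s0, hs0, -⟩ := hST1 g hg
  obtain ⟨C, hC, h⟩ := fin_of Pool.Agent.Helper86.QA.tTQF Pool.Agent.Helper20.QP.pQP_MUM
    hAFD hAIN hST1 hOPN g hg
  refine ⟨⟨s0, ?_, g_FUF _ s0 hs0⟩, exists_family g hg, C + 1, by linarith, fun U hU ρ hρ => ?_⟩
  · exact g_QFS Pool.Agent.Helper86.QA.tTQF g s0 s0 _ hs0 (nq (fun _ => 0)).isHomeomorph
      (g_FUS.2 _ s0 hs0).int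
  · obtain ⟨σ, h1, h2, h3⟩ := h U hU ρ hρ
    exact ⟨σ, h1, h2, h3.trans (ENNReal.ofReal_le_ofReal (by linarith))⟩

end Pool.Agent.Helper17.QD
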