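import Pool.Agent.Helper17.QD.FinOf
import Pool.Agent.Helper69.QT.GPT
import Pool.Agent.Helper63.QP2.All2
import Pool.Agent.Helper86.QA.All4

/-!
# Project QD (MP_d112a4_gt): the final theorem from `StAIN`, `EnL`, `StOP1`
-/

set_option autoImplicit false

namespace Pool.Agent.Helper17.QD

theorem goal_of2 (hAIN : Pool.Agent.Helper86.QA.StAIN) (hENL : Pool.Agent.Helper69.QT.EnL)
    (hOP1 : Pool.Agent.Helper20.QP.StOP1) (g : ℕ) (hg : 2 ≤ g) : Goal g :=
  goal_of hAIN Pool.Agent.Helper86.QA.tAFD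
    (Pool.Agent.Helper69.QT.st1_of' hAIN Pool.Agent.Helper86.QA.tAFD hENL)
    (Pool.Agent.Helper63.QP2.OPN_of hOP1 hAIN Pool.Agent.Helper86.QA.tAFD) g hg

end Pool.Agent.Helper17.QD
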