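import Pool.Agent.Helper17.QD.FinOf
import Pool.Agent.Helper69.QT.Fin
import Pool.Agent.Helper63.QP2.All2
import Pool.Agent.Helper86.QA.All4
import Pool.Agent.Helper20.QP.AsmP2
import Pool.Agent.Helper88.QT.All2

/-!
# Project QD (MP_d112a4_gt): the final theorem
-/

set_option autoImplicit false

namespace Pool.Agent.Helper17.QD

open Pool.Agent.Helper86.QA (tAIN tAFD)

theorem final (g : ℕ) (hg : 2 ≤ g) : Goal g :=
  goal_of tAIN tAFD (Pool.Agent.Helper69.QT.st1_fin tAIN tAFD)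
    (Pool.Agent.Helper63.QP2.OPN_of
      (Pool.Agent.Helper20.QP.pQP_OP1_of Pool.Agent.Helper88.QT.tCST tAIN) tAIN tAFD) g hg

end Pool.Agent.Helper17.QD
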