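import Pool.Agent.Helper35.PQF.Defs
import Pool.Agent.Helper20.QD.St5
import Pool.Agent.Helper20.QD.St6
import Pool.Agent.Helper68.QC.St5
import Pool.Agent.Helper86.QA.St4

/-!
# Project QD (MP_d112a4_gt): glue between the parts.  Statements.

The answer to Q1: for every `g ≥ 2` there is `C` such that every quasifuchsian representation of
the surface group of genus `g` lies within pressure distance `C` of a Fuchsian one (`StFIN`).

A STATE `Sta σ μ k ρ`: `σ` is Fuchsian (the end OUTSIDE), `μ` is a `σ`-invariant Beltrami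
coefficient supported in the unit disc (the end INSIDE), `ρ` is the deformed representation.

The assembly of `StFIN` from the statements of this file is in `GlueFin.lean`.
-/

set_option autoImplicit false

open Filter Topology Matrix Set Metric MeasureTheory
open scoped ComplexConjugate ComplexOrder ENNReal

namespace Pool.Agent.Helper17.QD

open Pool.Agent.Helper35.PM
open Pool.Agent.Helper68.QC (nq Bel InvB Intw)
open Pool.Agent.Helper20.QD (Fuch cj IsSU D DD SS dz dzb mob den)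

/-- `ρ = (X, Y)`: `X` is the outside of the disc modulo `σ`, `Y` is the inside of the disc, with
the complex structure of the Beltrami coefficient `μ`, modulo `σ`. -/
structure Sta {Γ : Type} [Group Γ] (σ : Γ →* SL) (μ : ℂ → ℂ) (k : ℝ) (ρ : Γ →* SL) : Prop where
  fs : Fuch σ
  k0 : 0 ≤ k
  k1 : k < 1
  bel : Bel k μ
  out0 : ∀ z : ℂ, 1 ≤ ‖z‖ → μ z = 0
  inv : ∀ γ, InvB (σ γ) μ
  int : ∀ γ, Intw (σ γ) (ρ γ) (nq μ)

/-- The complex conjugate representation. -/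
noncomputable def cc {Γ : Type} [Group Γ] (ρ : Γ →* SL) : Γ →* SL :=
  (Matrix.SpecialLinearGroup.map (starRingEnd ℂ)).comp ρ

/-- Change of marking. -/
def pre {Γ : Type} [Group Γ] (φ : Γ ≃* Γ) (ρ : Γ →* SL) : Γ →* SL := ρ.comp φ.toMonoidHom

/-- The surface of `σ` has no closed geodesic of length `< ε` (in terms of the trace). -/
def Thk {Γ : Type} [Group Γ] (ε : ℝ) (σ : Γ →* SL) : Prop :=
  ∀ γ : Γ, γ ≠ 1 → 2 + ε ≤ ‖((σ γ : SL) : Mat).trace‖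

/-- A `C¹` quasiconformal diffeomorphism of the disc, homeomorphic on the closed disc. -/
structure QcE (k : ℝ) (E : ℂ → ℂ) : Prop where
  cont : ContinuousOn E DD
  bij : BijOn E D D
  bijS : BijOn E SS SS
  c1 : ContDiffOn ℝ 1 E D
  dil : ∀ z ∈ D, dz E z ≠ 0 ∧ ‖dzb E z‖ ≤ k * ‖dz E z‖

/-- `E` conjugates `σ` to `τ` on the closed disc. -/
def Cnj {Γ : Type} [Group Γ] (σ τ : Γ →* SL) (E : ℂ → ℂ) : Prop :=
  ∀ γ, ∀ z ∈ DD, E (mob (σ γ) z) = mob (τ γ) (E z)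

/-- Conjugate up to signs: the same point of quasifuchsian space. -/
def Sim {Γ : Type} [Group Γ] (ρ σ : Γ →* SL) : Prop :=
  ∃ B : SL, ∀ γ, (σ γ : Mat) = ((B * ρ γ * B⁻¹ : SL) : Mat) ∨
    (σ γ : Mat) = -((B * ρ γ * B⁻¹ : SL) : Mat)

open Classical in
/-- `κ` outside the closed disc, `μ` inside. -/
noncomputable def mix (μ κ : ℂ → ℂ) (z : ℂ) : ℂ := if 1 < ‖z‖ then κ z else μ z

/-! ## Group A: representations -/

/-- FAI (about 50 lines)
(Fuchsian representations of a torsion free group are faithful modulo `±1`.)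
Proof: let `σ γ = ±1`.  Then `σ (γ ^ (2 * n)) = (σ γ ^ 2) ^ n = 1` for all `n`, so all `γ ^ (2 * n)` lie
in the finite set `{δ | hs (σ δ) ≤ 2}` (`hs 1 = 2`, `Fuch.discrete`).  So `γ ^ (2 * n) = γ ^ (2 * m)`
for some `n < m` (`Finite.exists_ne_map_eq_of_infinite` or `Set.infinite_of_injective_forall_mem`),
`γ ^ (2 * (m - n)) = 1`, and `γ = 1`.
Hypotheses: none. -/
def StFAI : Prop := ∀ (Γ : Type) [Group Γ] (σ : Γ →* SL), Fuch σ →
  (∀ (γ : Γ) (n : ℕ), 1 ≤ n → γ ^ n = 1 → γ = 1) →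
  ∀ γ, ((σ γ : Mat) = 1 ∨ (σ γ : Mat) = -1) → γ = 1

/-- QFS (about 50 lines)
(A representation which is conjugate to a Fuchsian one by a homeomorphism of the sphere is
quasifuchsian.)
Proof: `Pool.Agent.Helper86.QA.TM σ ρ w`: `fs`, `ho` are given, `eq γ z` is the first two clauses of
`Intw` (the functions `den`, `mob` of Helper20.QD and of Helper68.QC are the same by unfolding;
`SL` is the same type).  `hTQF : Pool.Agent.Helper86.QA.StTQF` with hFAI and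
`hTFR : Pool.Agent.Helper86.QA.StTFR g`.
Hypotheses: hFAI hTQF hTFR. -/
def StQFS : Prop := ∀ g : ℕ, ∀ (σ ρ : SurfaceGroup g →* SL) (w : ℂ → ℂ),
  Fuch σ → IsHomeomorph w → (∀ γ, Intw (σ γ) (ρ γ) w) → IsQF ρ

/-- TMI (about 100 lines)
(The clauses at infinity.)  A homeomorphism of the plane which intertwines two representations at
the finite points also does so at infinity.
Proof: `A = σ γ`, `B = ρ γ`.  If `A 1 0 = 0` then `A 1 1 ≠ 0` and `den A` has no zero; if `A 1 0 ≠ 0` it has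
the zero `-A 1 1 / A 1 0`.  So `A 1 0 = 0` iff `den A` has no zero, iff `den B (w z) ≠ 0` for all `z`, iff
`den B` has no zero (`w` is onto), iff `B 1 0 = 0`.  Let `A 1 0 ≠ 0`, `p = A 0 0 / A 1 0`.  The inverse
of `[[a,b],[c,d]]` is `[[d,-b],[-c,a]]`, `σ γ⁻¹ = (σ γ)⁻¹`: `den A⁻¹ p = -A 1 0 * p + A 0 0 = 0`, so
`den B⁻¹ (w p) = 0`, that is `-B 1 0 * w p + B 0 0 = 0`.
Hypotheses: none. -/
def StTMI : Prop := ∀ (Γ : Type) [Group Γ] (σ ρ : Γ →* SL) (w : ℂ → ℂ), IsHomeomorph w →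
  (∀ γ, ∀ z : ℂ, (den (σ γ) z = 0 ↔ den (ρ γ) (w z) = 0) ∧
    (den (σ γ) z ≠ 0 → w (mob (σ γ) z) = mob (ρ γ) (w z))) → ∀ γ, Intw (σ γ) (ρ γ) w

/-- FUF (about 80 lines)
(`SU(1,1)` is conjugate to `SL(2,ℝ)`.)
Proof: `B = s⁻¹ [[i, i],[-1, 1]]`, `s = 1 + i`, `s² = 2i`.  For `A = [[a, b],[conj b, conj a]]`,
`B A B⁻¹ = [[Re (a + b), Im a - Im b],[-Im a - Im b, Re (a - b)]]` (direct computation).
Hypotheses: none. -/
def StFUF : Prop := ∀ (Γ : Type) [Group Γ] (σ : Γ →* SL), Fuch σ → IsFuchsian σ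

/-- FPC (about 120 lines)
(New Fuchsian groups from old ones.)
Proof: (1) `cc σ`: `(cc σ γ) i j = conj (σ γ i j)`, so it is in `SU(1,1)`, `hs` is unchanged, and
`mob (cc σ γ) z = conj (mob (σ γ) (conj z))`.  (2) `pre φ σ γ = σ (φ γ)`: the set
`{γ | hs (σ (φ γ)) ≤ X}` is the preimage of a finite set under the bijection `φ`; cocompact: use
`φ.symm γ`.  (3) `cj N σ γ = N * σ γ * N⁻¹`: `SU(1,1)` is a group (hSUB); discrete:
`hs (σ γ) = hs (N⁻¹ (cj N σ γ) N) ≤ hs N⁻¹ * hs (..) * hs N` (the Hilbert-Schmidt norm is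
submultiplicative, see the library `Pool.Agent.Helper35.PM`, statement St_HS1); cocompact:
`mob N` maps the disc `‖z‖ ≤ r` into a disc `‖z‖ ≤ r' < 1` (compactness: a continuous image of a compact
subset of `D` inside `D`), and for `z ∈ D` take `γ` for `mob N⁻¹ z`.
Hypotheses: hSUB. -/
def StFPC : Prop := ∀ (Γ : Type) [Group Γ] (σ : Γ →* SL), Fuch σ →
  Fuch (cc σ) ∧ (∀ φ : Γ ≃* Γ, Fuch (pre φ σ)) ∧ ∀ N : SL, IsSU N → Fuch (cj N σ)

/-! ## Group B: change of marking and complex conjugation -/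

/-- IQP (about 120 lines)
(`IsQF` is invariant under a change of marking.)
Proof: `pre φ ρ γ = ρ (φ γ)`, `φ` a bijection with `φ 1 = 1`.  faithful: clear.  discrete: preimage of
a finite set under a bijection.  `limitSet (pre φ ρ) = limitSet ρ`: `MapClusterPt Q cofinite (F ∘ φ)`
iff `MapClusterPt Q cofinite F`, since `map φ cofinite = cofinite` for a bijection
(`Equiv.map_cofinite`-type fact or `Filter.comap_cofinite_eq`; `mapClusterPt_comp`).  cocompact: the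
same `C`, `K`; for `∀ γ` use `φ γ`, for `∃ γ` use `φ.symm γ`.
Hypotheses: none. -/
def StIQP : Prop := ∀ (Γ : Type) [Group Γ] (φ : Γ ≃* Γ) (ρ : Γ →* SL), IsQF ρ → IsQF (pre φ ρ)

/-- IQC (about 180 lines)
(`IsQF` is invariant under complex conjugation.)
Proof: let `c : Mat → Mat` be the entrywise conjugation, a real linear homeomorphism with
`c (P Q) = c P c Q`, `c (Pᴴ) = (c P)ᴴ`, `trace (c P) = conj (trace P)`, `c (density P) = density (c P)`,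
`c c = id`; `P.PosDef → (c P).PosDef` (for instance `x* (c P) x = conj ((c x)* P (c x))`, or
`Matrix.PosDef.transpose`/`conjTranspose`: for Hermitian `P`, `c P = Pᵀ`), `hs (c P) = hs P`.  faithful:
`c A = ±1` iff `A = ±1`.  discrete: `hs`.  `limitSet (cc ρ) = c '' limitSet ρ` (the orbit map is
composed with the homeomorphism `c`), so it is homeomorphic to the circle, too.  cocompact:
`c '' C`, `c '' K`.
Hypotheses: none. -/
def StIQC : Prop := ∀ (Γ : Type) [Group Γ] (ρ : Γ →* SL), IsQF ρ → IsQF (cc ρ)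

/-- NMP (about 120 lines)
(Counting functions and a change of marking.)
Proof: `tl` is invariant under conjugation (it depends on the trace only).  `e = ConjClasses.map φ`
is a bijection of `ConjClasses Γ` (inverse: the map of `φ.symm`), and `len (pre φ ρ) c = len ρ (e c)`:
`Quotient.out (e c)` is conjugate to `φ (Quotient.out c)`.  So `classes (pre φ ρ) T = e ⁻¹' classes ρ T`;
`ncard` of a preimage under a bijection; `finsum_mem` under a bijection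
(`finsum_mem_eq_of_bijOn`).
Hypotheses: none. -/
def StNMP : Prop := ∀ (Γ : Type) [Group Γ] (φ : Γ ≃* Γ), (∀ (ρ : Γ →* SL) (T : ℝ),
  num (pre φ ρ) T = num ρ T) ∧
  ∀ (ρ σ : Γ →* SL) (T : ℝ), avg (pre φ ρ) (pre φ σ) T = avg ρ σ T

/-- NMC (about 60 lines)
(Counting functions and complex conjugation.)
Proof: the trace of `cc ρ γ` is the conjugate of the trace of `ρ γ`, so `conj` is a bijection of the
two sets of eigenvalues in the definition of `tl`, which preserves `‖μ‖`: `tl (cc ρ γ) = tl (ρ γ)`, and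
`len (cc ρ) = len ρ`.
Hypotheses: none. -/
def StNMC : Prop := ∀ (Γ : Type) [Group Γ], (∀ (ρ : Γ →* SL) (T : ℝ),
  num (cc ρ) T = num ρ T) ∧ ∀ (ρ σ : Γ →* SL) (T : ℝ), avg (cc ρ) (cc σ) T = avg ρ σ T

/-- OPR (about 120 lines)
(Operations on representations which preserve everything.)
Proof: first `ent (O ρ) = ent ρ` (`num`), `Adapted (U (O ρ)) (O ρ)` (because `O ρ` is quasifuchsian)
says `Adapted (U (O ρ)) ρ` after rewriting `num`, `ent`.  `J (U (O ρ)) (O ρ) (O σ) = J (U (O ρ)) ρ σ`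
(`ent`, `avg`; `limUnder` of equal functions), so `speedSq U (fun t => O (c t)) t =
speedSq (fun τ => U (O τ)) c t` and `LengthLE U (fun t => O (c t)) a b B` iff
`LengthLE (fun τ => U (O τ)) c a b B`.  By induction on `PressureLE (fun τ => U (O τ)) ρ σ B` one gets
`PressureLE U (O ρ) (O σ) B`: `conj` by hypothesis (4), `path` with `fun t => O (c t)`
(hypotheses (1), (5)), `trans`.  Then `sInf_le_sInf`.
Hypotheses: none. -/
def StOPR : Prop := ∀ (Γ : Type) [Group Γ] (O : (Γ →* SL) → (Γ →* SL)),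
  (∀ ρ, IsQF ρ → IsQF (O ρ)) → (∀ ρ T, num (O ρ) T = num ρ T) →
  (∀ ρ σ T, avg (O ρ) (O σ) T = avg ρ σ T) →
  (∀ ρ σ, Sim ρ σ → Sim (O ρ) (O σ)) →
  (∀ (c : ℝ → Γ →* SL) (a b : ℝ),
    (∀ γ i j, ContDiffOn ℝ ((⊤ : ℕ∞) : WithTop ℕ∞) (fun t : ℝ => (c t γ : Mat) i j) (Icc a b)) →
    ∀ γ i j, ContDiffOn ℝ ((⊤ : ℕ∞) : WithTop ℕ∞)
      (fun t : ℝ => (O (c t) γ : Mat) i j) (Icc a b)) →
  ∀ U : (Γ →* SL) → Ultrafilter ℝ, (∀ ρ, IsQF ρ → Adapted (U ρ) ρ) →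
    (∀ ρ, IsQF ρ → Adapted (U (O ρ)) ρ) ∧
    ∀ ρ σ, pressureDist U (O ρ) (O σ) ≤ pressureDist (fun τ => U (O τ)) ρ σ

/-- PRE (about 40 lines)
(Change of marking.)
Proof: hOPR for `O = pre φ`: hIQP, hNMP; `Sim` with the same `B`; smoothness: entry of `c t (φ γ)`.
Hypotheses: hOPR hIQP hNMP. -/
def StPRE : Prop := ∀ (g : ℕ), 2 ≤ g → ∀ (φ : SurfaceGroup g ≃* SurfaceGroup g)
  (U : (SurfaceGroup g →* SL) → Ultrafilter ℝ), (∀ ρ, IsQF ρ → Adapted (U ρ) ρ) →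
  (∀ ρ, IsQF ρ → Adapted (U (pre φ ρ)) ρ) ∧
  ∀ ρ σ, pressureDist U (pre φ ρ) (pre φ σ) ≤ pressureDist (fun τ => U (pre φ τ)) ρ σ

/-- CCJ (about 50 lines)
(Complex conjugation.)
Proof: hOPR for `O = cc`: hIQC, hNMC; `Sim` with the entrywise conjugate of `B`; smoothness:
`conj` of a smooth function of a real variable (`Complex.conjCLE.contDiff.comp_contDiffOn`).
Hypotheses: hOPR hIQC hNMC. -/
def StCCJ : Prop := ∀ (g : ℕ), 2 ≤ g →
  ∀ (U : (SurfaceGroup g →* SL) → Ultrafilter ℝ), (∀ ρ, IsQF ρ → Adapted (U ρ) ρ) →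
  (∀ ρ, IsQF ρ → Adapted (U (cc ρ)) ρ) ∧
  ∀ ρ σ, pressureDist U (cc ρ) (cc σ) ≤ pressureDist (fun τ => U (cc τ)) ρ σ

/-! ## Group C: states -/

/-- NUC (about 120 lines)
(Complex conjugate coefficients.)
Proof: as in Helper68/QC, statement StSYX: `f z = conj (w (conj z))`, `w = nq μ` with weak
derivatives `a, b`, `b = μ a` a.e., is a homeomorphism fixing `0, 1` with weak derivatives
`conj (a (conj z))`, `conj (b (conj z))`: for a test function `φ` put `φ* z = conj (φ (conj z))`, then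
`dz φ* z = conj (dz φ (conj z))`, and `∫ f φ_z = conj ∫ w φ*_z = -conj ∫ a φ* = -∫ conj(a(conj z)) φ z`
(`z ↦ conj z` preserves Lebesgue measure).  So `Sol (fun z => conj (μ (conj z))) univ f`, and StUNI with
`S = ∅`.
Hypotheses: hEX : Pool.Agent.Helper68.QC.StEX, hUNI : Pool.Agent.Helper68.QC.StUNI. -/
def StNUC : Prop := ∀ (k : ℝ), k < 1 → ∀ μ, Bel k μ → Bel k (fun z => conj (μ (conj z))) ∧
  ∀ z, nq (fun z => conj (μ (conj z))) z = conj (nq μ (conj z))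

/-- SPC (about 120 lines)
(States: complex conjugation, marking, signs.)
Proof: (1) `cc`: `Fuch` by hFPC; `Bel`, `out0` clear; `InvB (cc σ γ) (conj μ conj)`: conjugate the
equation of `InvB (σ γ) μ` at `conj z` (`z ↦ conj z` preserves Lebesgue measure, so the equation holds
a.e.), `den (cc σ γ) z = conj (den (σ γ) (conj z))`, the same for `mob`; `Intw`: the four clauses for
`conj z`, with hNUC.  (2) marking: clear (hFPC).  (3) signs: `Intw A (-B) w` from `Intw A B w`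
(denominators and numerators change their sign).
Hypotheses: hFPC hNUC. -/
def StSPC : Prop := ∀ (Γ : Type) [Group Γ] (σ ρ : Γ →* SL) (μ : ℂ → ℂ) (k : ℝ), Sta σ μ k ρ →
  Sta (cc σ) (fun z => conj (μ (conj z))) k (cc ρ) ∧ (∀ φ : Γ ≃* Γ, Sta (pre φ σ) μ k (pre φ ρ)) ∧
  ∀ ρ' : Γ →* SL, (∀ γ, ρ' γ = ρ γ ∨ ρ' γ = -ρ γ) → Sta σ μ k ρ'

/-- FUS (about 60 lines)
(The Fuchsian state.)
Proof: `nq 0 = id` by StUNI with `S = ∅`: `Sol 0 univ id` with weak derivatives `1`, `0`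
(`wd_smooth` in Helper68/QC or integration by parts).  `Intw A A id` is trivial, `InvB A 0` too.
Hypotheses: hUNI : Pool.Agent.Helper68.QC.StUNI. -/
def StFUS : Prop := (∀ z : ℂ, nq (fun _ => 0) z = z) ∧
  ∀ (Γ : Type) [Group Γ] (σ : Γ →* SL), Fuch σ → Sta σ (fun _ => 0) 0 σ

/-- BER (about 250 lines)
(Every quasifuchsian representation is a state up to conjugation.)
Proof: `ρ` is `CC` with limit set homeomorphic to the circle; hWNO (with the Fuchsian `σ0`) gives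
`B, σ, τ, W, f, E, k` with `Bers (cj B ρ) σ τ W f E k 1 0`.
(1) `W` is a homeomorphism, `C¹` on `offS` (Helper68/QC/St5): on `D` by `c1`, outside because it is
holomorphic there; outside `dz W = deriv W`, `dzb W = 0`, `deriv W ≠ 0` (injective, hRIJ).  hWSL:
`Bel k μ` for `μ = mu0 W` and `W z = W 0 + (W 1 - W 0) * nq μ z`.  `μ z = 0` for `‖z‖ ≥ 1` (definition on
the circle, `dzb W = 0` outside).
(2) `A = σ γ ∈ SU(1,1)`: `‖A 0 0 z + A 0 1‖² - ‖den A z‖² = ‖z‖² - 1`, so `mob A z ∈ offS` if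
`z ∈ offS`, `den A z ≠ 0`; hINB with `Bers.eqv`: `InvB (σ γ) μ`.
(3) `α = W 1 - W 0 ≠ 0`, `s² = α`, `M = [[s⁻¹, -W 0 s⁻¹],[0, s]] ∈ SL`, `mob M y = (y - W 0)/α`,
`den M y = s`, so `nq μ z = mob M (W z)`.  Put `B' = M * B`: `cj B' ρ = cj M (cj B ρ)`.  For `C ∈ SL`:
`den (M * C * M⁻¹) (mob M y) = den C y` and, if it is not zero,
`mob (M * C * M⁻¹) (mob M y) = mob M (mob C y)` (hSUB, or direct computation).  So the hypothesis of
hTMI holds for `σ`, `cj B' ρ`, `nq μ`.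
Hypotheses: hWNO hRIJ hSUB (Helper20.QD), hWSL hINB (Helper68.QC), hTMI. -/
def StBER : Prop := ∀ g : ℕ, 2 ≤ g → (∃ σ0 : SurfaceGroup g →* SL, Fuch σ0) →
  ∀ ρ : SurfaceGroup g →* SL, IsQF ρ → ∃ (B : SL) (σ : SurfaceGroup g →* SL) (μ : ℂ → ℂ) (k : ℝ),
    Sta σ μ k (cj B ρ)

/-- INC (about 180 lines)
(Converse of StEQV: if `nq μ` intertwines two Moebius maps then `μ` is invariant.)
Proof: `w = nq μ`, `V = {z | den A z ≠ 0}`, `V' = {y | den B y ≠ 0}`, `w` maps `V` to `V'`.  On `V` the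
function `F = w ∘ mob A = mob B ∘ w`.  By StPRE (`φ = mob A`, `φ' = (den A)⁻²`) `F` solves the equation
with coefficient `μ' z = μ (mob A z) (den A z)² / conj (den A z)²` on `V`.  The chain rule for a
holomorphic function on the left (in the proof of StPOS, Helper68/QC) gives that `F` has weak
derivatives `g'(w) a`, `g'(w) b` on `V`, `g = mob B`, `g' = (den B)⁻² ≠ 0`, `a, b` the weak derivatives of
`w` with `b = μ a`, `a ≠ 0` everywhere (StCVM).  Weak derivatives are unique a.e. on `V` (statement UNW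
of Helper68/QC), so `g'(w) b = μ' g'(w) a` a.e. on `V`, hence `μ a = μ' a`, `μ = μ'` a.e. on `V`, and the
complement of `V` has at most one point.
Hypotheses: statements of Helper68/QC. -/
def StINC : Prop := ∀ (k : ℝ), k < 1 → ∀ μ, Bel k μ → ∀ A B : SL, Intw A B (nq μ) → InvB A μ

/-- NBC (about 250 lines)
(Change of the base by an element of `SU(1,1)`.)
Proof: `w = nq μ`, `A = N⁻¹ ∈ SU(1,1)`.  `μ' z = 0` for `‖z‖ ≥ 1` and
`μ' z = μ (mob A z) (den A z)² / conj (den A z)²` for `‖z‖ < 1`; measurable, bounded by `k`; the second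
formula also holds for `‖z‖ ≥ 1`, `den A z ≠ 0` (both sides are `0` since `‖mob A z‖ ≥ 1`).
(1) There is `M ∈ SL` with `nq μ' z = mob M (w (mob A z))`, `den M (w (mob A z)) ≠ 0`, for all `z` but
one.  If `A 1 0 = 0`: `f z = w (mob A z)` (a rotation inside), `Sol μ' univ f` (StPRE), `f 0 = 0`,
`u = f 1 ≠ 0`, `nq μ' = f/u` (StUNI), `M` diagonal with `mob M y = y/u`.  If `A 1 0 ≠ 0`: `e = -A 1 1/A 1 0`,
`p = A 0 0/A 1 0`, `q = w p`; `f z = 1/(w (mob A z) - q)` for `z ≠ e`, `f e = 0`: `mob A` is a bijection of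
`{e}ᶜ` onto `{p}ᶜ`, so `f` is a bijection of the plane; it is continuous (at `e`: `w ∘ mob A → ∞`), proper
(`mob A z → p` as `z → ∞`), hence a homeomorphism; `Sol μ' {e}ᶜ f` by StPRE and StPOS; StUNI with
`S = {e}` for `(f - f 0)/(f 1 - f 0)`.  (Compare the proof of StEQX, Helper68/QCM/M_EQX.lean.)
(2) `InvB (cj N σ γ) μ'`: `C = N σ(γ) N⁻¹`, `mob A (mob C z) = mob (σ γ) (mob A z)` up to finitely many
`z`, the equation of `InvB (σ γ) μ` holds at `mob A z` for a.e. `z` (`mob A` preserves null sets: it is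
a diffeomorphism off one point), and the factors multiply by the chain rule (or by the cocycle
`den (A * C) z = den A (mob C z) * den C z`).
(3) StEQV: `Intw (cj N σ γ) B' (nq μ')` for some `B'`.  For all but finitely many `z`:
`mob B' (nq μ' z) = nq μ' (mob C z) = mob M (w (mob A (mob C z))) = mob M (w (mob (σ γ) (mob A z)))
= mob M (mob (ρ γ) (w (mob A z))) = mob (M * ρ γ * M⁻¹) (nq μ' z)`, so the two Moebius maps agree at
infinitely many points and `B' = ± (M * ρ γ * M⁻¹)`; `Intw A (-B) w` follows from `Intw A B w` (StITW).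
Hypotheses: hSUB hFPC, and EX UNI PRE POS EQV ITW of Helper68.QC. -/
def StNBC : Prop := ∀ (Γ : Type) [Group Γ] (σ ρ : Γ →* SL) (μ : ℂ → ℂ) (k : ℝ) (N : SL),
  Sta σ μ k ρ → IsSU N → ∃ (μ' : ℂ → ℂ) (M : SL), Sta (cj N σ) μ' k (cj M ρ)

/-! ## Group D: moving the outside end -/

/-- QIN (about 150 lines)
(Inverse and complex conjugate of a quasiconformal diffeomorphism.)
Proof: (1) the inverse `E'` of the bijection `E : DD → DD` (union of the bijections of `D` and `SS`;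
outside `DD` put `E' = id`) is continuous on `DD` (compactness: `ContinuousOn` inverse of a continuous
bijection of compact sets), `C¹` on `D` by the inverse function theorem: the derivative
`a ↦ dz E z a + dzb E z conj a` of `E` is invertible since `‖dzb‖ < ‖dz‖`; with `p = dz E z`,
`q = dzb E z`, `J = ‖p‖² - ‖q‖²`, `z = E' y`: `dz E' y = conj p/J`, `dzb E' y = -q/J`.
(2) `z ↦ conj (E (conj z))` has `dz = conj (dz E (conj z))`, `dzb = conj (dzb E (conj z))`.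
(3) intertwining: from `E ∘ σ = τ ∘ E` one gets `E' ∘ τ = σ ∘ E'` on `DD` (`mob (τ γ)`, `mob (σ γ)`
preserve `DD`, hSUB) and the relation of the conjugates for `cc σ`, `cc τ`.
Hypotheses: hSUB. -/
def StQIN : Prop := ∀ (k : ℝ) (E : ℂ → ℂ), k < 1 → QcE k E →
  (∃ E' : ℂ → ℂ, QcE k E' ∧ (∀ z ∈ DD, E' (E z) = z ∧ E (E' z) = z) ∧
    ∀ (Γ : Type) [Group Γ] (σ τ : Γ →* SL), Fuch σ → Fuch τ → Cnj σ τ E → Cnj τ σ E') ∧
  QcE k (fun z => conj (E (conj z))) ∧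
  ∀ (Γ : Type) [Group Γ] (σ τ : Γ →* SL), Cnj σ τ E →
    Cnj (cc σ) (cc τ) (fun z => conj (E (conj z)))

/-- NRM (about 250 lines)
(Normalisation and reflection of the conjugating map.)
Proof: `a = E 0 ∈ D`, `M ∈ SU(1,1)` with `mob M a = 0` (hSUB), `E1 = mob M ∘ E`: `QcE k0 E1` (`mob M` is
holomorphic near `DD` with nonzero derivative, a bijection of `D` and of `SS`), `E1 0 = 0`,
`Cnj σ (cj M s1) E1`.  hRFL gives the homeomorphism `V` of the plane, `V = E1` on `DD`,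
`V z = rf (E1 (rf z))` outside, `rf z = 1/conj z`.  hWSL: `κ = mu0 V`, `Bel k0 κ`,
`V z = V 1 * nq κ z` (`V 0 = 0`), `‖V 1‖ = 1` (`1 ∈ SS`).
Intertwining of `V` for `A = σ γ`, `A' = cj M s1 γ`, both in `SU(1,1)`: on `DD` denominators do not
vanish.  For `‖z‖ > 1`, `u = rf z ∈ D`: `den A z = conj (A 0 0 u + A 0 1)/conj u`,
`A 0 0 z + A 0 1 = conj (den A u)/conj u` (`u ≠ 0`), so `den A z = 0` iff `mob A u = 0` iff
`E1 (mob A u) = 0` iff `mob A' (E1 u) = 0` iff `den A' (rf (E1 u)) = 0` (`E1 u ≠ 0`), and otherwise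
`mob A z = rf (mob A u)` and `V (mob A z) = rf (E1 (mob A u)) = rf (mob A' (E1 u)) = mob A' (V z)`.
`R = [[e, 0],[0, conj e]]` with `e² = conj (V 1)`: `mob R y = e² y`, `nq κ = mob R ∘ V`, `N = R * M`,
`cj N s1 = cj R (cj M s1)`; hTMI: `Intw (σ γ) (cj N s1 γ) (nq κ)`; hINB: `InvB (σ γ) κ`.  `‖nq κ z‖ = ‖V z‖`.
Hypotheses: hSUB hTMI, and RFL WSL INB of Helper68.QC. -/
def StNRM : Prop := ∀ (Γ : Type) [Group Γ] (σ s1 : Γ →* SL) (k0 : ℝ) (E : ℂ → ℂ), 0 ≤ k0 →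
  k0 < 1 → Fuch σ → Fuch s1 → QcE k0 E → Cnj σ s1 E →
  ∃ (N : SL) (κ : ℂ → ℂ), IsSU N ∧ Bel k0 κ ∧ (∀ γ, InvB (σ γ) κ) ∧
    (∀ γ, Intw (σ γ) (cj N s1 γ) (nq κ)) ∧ (∀ z, ‖nq κ z‖ < 1 ↔ ‖z‖ < 1) ∧
    ∀ z, ‖nq κ z‖ = 1 ↔ ‖z‖ = 1

/-- MVD (about 200 lines; the hypothesis hF1 is `f1_` of Pool/Agent/Helper35/PQF/All.lean, statement
`St_F1`, and hQF is `qf_`, statement `St_QF`)
(The distance estimate.)
Proof: `r = (1 + k0)/2 ∈ (0,1)`, `k0 ≤ r`.  For `t` in the unit disc let `m t z = (t/r) * κ z` if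
`1 < ‖z‖`, `m t z = μ z` otherwise.  `Bel (max k (k0/r)) (m t)`, `k0/r < 1`; holomorphic (affine) in `t`;
`InvB (σ γ) (m t)`: for `A ∈ SU(1,1)` and `den A z ≠ 0` one has `(1 - ‖mob A z‖²)‖den A z‖² = 1 - ‖z‖²`,
so `1 < ‖mob A z‖` iff `1 < ‖z‖`, and the two invariance relations combine.  `m 0 = μ` (`Sta.out0`).
StREP (Helper68.QC, `c = 0`, `r = 1`) for `ρ₀ = σ`, `σ = ρ` (`Sta.int`) gives `ρ_t` with `ρ_0 = ρ`; it is a
`HolDisc` (hQFS for the homeomorphism `nq (m t)`).  Choose `L ≥ 0` with `zt L = r`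
(`L = 2 artanh r = log ((1+r)/(1-r))`, compare `exists_zt` in Pool/Agent/Helper12/PM/M_F3.lean).  hF1
with `η = 2` (`2 - ent ≤ 2` by hQF): `d (ρ_0) (ρ_r) ≤ √(L (L+2)) =: C`, and `m r = mix μ κ`.
Hypotheses: hQFS, hREP (Helper68.QC), hF1, hQF. -/
def StMVD : Prop := ∀ k0 : ℝ, 0 ≤ k0 → k0 < 1 → ∃ C : ℝ, 0 ≤ C ∧ ∀ g : ℕ, 2 ≤ g →
  ∀ U : (SurfaceGroup g →* SL) → Ultrafilter ℝ, (∀ ρ, IsQF ρ → Adapted (U ρ) ρ) →
  ∀ (σ ρ : SurfaceGroup g →* SL) (μ κ : ℂ → ℂ) (k : ℝ), Sta σ μ k ρ → Bel k0 κ →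
    (∀ γ, InvB (σ γ) κ) →
    ∃ ρ' : SurfaceGroup g →* SL, (∀ γ, Intw (σ γ) (ρ' γ) (nq (mix μ κ))) ∧
      pressureDist U ρ ρ' ≤ ENNReal.ofReal C

/-- MVS (about 250 lines)
(The new state.)
Proof: `K = max k k0 < 1`, `m = mix μ κ`, `Bel K m`, `Bel K κ`, `δ = 2K/(1+K²) < 1`.  For complex
`a, b` of modulus `≤ K`: `‖a - b‖ ≤ δ ‖1 - conj b a‖` (`‖1 - conj b a‖² - ‖a - b‖² = (1-‖a‖²)(1-‖b‖²) ≥
(1-K²)²`, `‖a - b‖ ≤ 2K`, so `‖a-b‖²/‖1 - conj b a‖² ≤ 4K²/(4K² + (1-K²)²) = δ²`).  StCMP: `ν` with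
`Bel δ ν`, `nq m z = nq ν (nq κ z)`, and `ν (nq κ z) = 0` for a.e. `z` with `1 < ‖z‖` (there `m = κ`).
By StNUL (and the hypothesis on `nq κ`, which maps `{1 < ‖z‖}` onto itself) `ν y = 0` for a.e. `y`
with `1 < ‖y‖`; the circle is a null set.  `ν' y = ν y` for `‖y‖ < 1`, `0` otherwise: `ν' = ν` a.e., so
`nq ν' = nq ν` (StUNI, StEX: the equation holds a.e.), `Bel δ ν'`, `out0`.
`Intw (cj N s1 γ) (ρ' γ) (nq ν')`: from `Intw (σ γ) (cj N s1 γ) (nq κ)` and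
`Intw (σ γ) (ρ' γ) (nq ν' ∘ nq κ)` (the four clauses; every point is `nq κ z` for some `z`; the pole
and the image of infinity correspond).  hINC gives `InvB (cj N s1 γ) ν'`.  `Fuch (cj N s1)` by hFPC.
Hypotheses: hFPC hINC, and EX UNI CMP NUL of Helper68.QC. -/
def StMVS : Prop := ∀ (Γ : Type) [Group Γ] (σ s1 ρ ρ' : Γ →* SL) (μ κ : ℂ → ℂ) (k k0 : ℝ) (N : SL),
  0 ≤ k0 → k0 < 1 → Sta σ μ k ρ → Fuch s1 → IsSU N → Bel k0 κ →
  (∀ γ, Intw (σ γ) (cj N s1 γ) (nq κ)) → (∀ z, ‖nq κ z‖ < 1 ↔ ‖z‖ < 1) →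
  (∀ z, ‖nq κ z‖ = 1 ↔ ‖z‖ = 1) → (∀ γ, Intw (σ γ) (ρ' γ) (nq (mix μ κ))) →
  ∃ (μ' : ℂ → ℂ) (k' : ℝ), Sta (cj N s1) μ' k' ρ'

/-- MOV (about 100 lines)
(Moving the outside end a bounded Teichmueller distance.)
Proof: hNRM gives `N, κ`; hMVD gives `ρ'` within distance `C`, hMVS a state over `cj N s1`; hNBC with
`N⁻¹` (`cj N⁻¹ (cj N s1) = s1`) gives a state `Sta s1 μ'' k' (cj M ρ')`, and
`pressureDist U ρ' (cj M ρ') ≤ 0` (`PressureLE.conj`); triangle inequality hSY (`sy_ : St_SY`).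
Hypotheses: hNRM hMVD hMVS hNBC hSUB hSY. -/
def StMOV : Prop := ∀ k0 : ℝ, 0 ≤ k0 → k0 < 1 → ∃ C : ℝ, 0 ≤ C ∧ ∀ g : ℕ, 2 ≤ g →
  ∀ U : (SurfaceGroup g →* SL) → Ultrafilter ℝ, (∀ ρ, IsQF ρ → Adapted (U ρ) ρ) →
  ∀ (σ s1 ρ : SurfaceGroup g →* SL) (μ : ℂ → ℂ) (k : ℝ) (E : ℂ → ℂ), Sta σ μ k ρ → Fuch s1 →
    QcE k0 E → Cnj σ s1 E →
    ∃ (μ' : ℂ → ℂ) (k' : ℝ) (ρ' : SurfaceGroup g →* SL), Sta s1 μ' k' ρ' ∧
      pressureDist U ρ ρ' ≤ ENNReal.ofReal C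

/-! ## The three big statements (not modules) -/

/-- **ST1** (stage 1: one base surface `X₀`, arbitrary `Y`).  Owner: helper69, with helper61, 68,
86. -/
def StST1 : Prop := ∀ g : ℕ, 2 ≤ g → ∃ s0 : SurfaceGroup g →* SL, Fuch s0 ∧ ∃ C : ℝ, 0 ≤ C ∧
  ∀ U : (SurfaceGroup g →* SL) → Ultrafilter ℝ, (∀ ρ, IsQF ρ → Adapted (U ρ) ρ) →
  ∀ (ρ : SurfaceGroup g →* SL) (μ : ℂ → ℂ) (k : ℝ), Sta s0 μ k ρ →
    pressureDist U ρ s0 ≤ ENNReal.ofReal C

/-- **OPN** (stage 2: opening the short curves of `X`).  Owners: helper20, helper85, helper88. -/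
def StOPN : Prop := ∀ g : ℕ, 2 ≤ g → ∃ ε : ℝ, 0 < ε ∧ ∃ C : ℝ, 0 ≤ C ∧
  ∀ U : (SurfaceGroup g →* SL) → Ultrafilter ℝ, (∀ ρ, IsQF ρ → Adapted (U ρ) ρ) →
  ∀ (σ ρ : SurfaceGroup g →* SL) (μ : ℂ → ℂ) (k : ℝ), Sta σ μ k ρ →
    ∃ (σ' ρ' : SurfaceGroup g →* SL) (μ' : ℂ → ℂ) (k' : ℝ), Sta σ' μ' k' ρ' ∧ Thk ε σ' ∧
      pressureDist U ρ ρ' ≤ ENNReal.ofReal C

/-- **MU0** (Mumford compactness with markings).  Owner: helper20. -/
def StMU0 : Prop := ∀ g : ℕ, 2 ≤ g → ∀ s0 : SurfaceGroup g →* SL, Fuch s0 → ∀ ε : ℝ, 0 < ε →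
  ∃ k0 : ℝ, 0 ≤ k0 ∧ k0 < 1 ∧ ∀ σ : SurfaceGroup g →* SL, Fuch σ → Thk ε σ →
    ∃ (φ : SurfaceGroup g ≃* SurfaceGroup g) (E : ℂ → ℂ), QcE k0 E ∧
      (Cnj (pre φ s0) σ E ∨ Cnj (pre φ s0) (cc σ) E)

/-- MUM (about 60 lines)
(The form used in the assembly.)
Proof: if `Cnj (pre φ s0) σ E` use hQIN (inverse map).  If `Cnj (pre φ s0) (cc σ) E` then the
conjugate `E₂ z = conj (E (conj z))` satisfies `Cnj (cc (pre φ s0)) (cc (cc σ)) E₂`, `cc (cc σ) = σ`,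
`cc (pre φ s0) = pre φ (cc s0)` (definition), and hQIN gives its inverse.
Hypotheses: hMU0 hQIN hFPC. -/
def StMUM : Prop := ∀ g : ℕ, 2 ≤ g → ∀ s0 : SurfaceGroup g →* SL, Fuch s0 → ∀ ε : ℝ, 0 < ε →
  ∃ k0 : ℝ, 0 ≤ k0 ∧ k0 < 1 ∧ ∀ σ : SurfaceGroup g →* SL, Fuch σ → Thk ε σ →
    ∃ (φ : SurfaceGroup g ≃* SurfaceGroup g) (E : ℂ → ℂ), QcE k0 E ∧
      (Cnj σ (pre φ s0) E ∨ Cnj σ (pre φ (cc s0)) E)

/-- The final theorem. -/
def StFIN : Prop := ∀ g : ℕ, 2 ≤ g → ∃ C : ℝ, 0 ≤ C ∧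
  ∀ U : (SurfaceGroup g →* SL) → Ultrafilter ℝ, (∀ ρ, IsQF ρ → Adapted (U ρ) ρ) →
  ∀ ρ : SurfaceGroup g →* SL, IsQF ρ → ∃ σ : SurfaceGroup g →* SL, IsQF σ ∧ IsFuchsian σ ∧
    pressureDist U ρ σ ≤ ENNReal.ofReal C

end Pool.Agent.Helper17.QD
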