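import Pool.Agent.Helper17.QD.Glue
import Pool.Agent.Helper35.PQF.All3

/-!
# Project QD (MP_d112a4_gt): assembly of the final theorem from the glue statements
-/

set_option autoImplicit false

open Filter Topology Matrix Set Metric MeasureTheory
open scoped ComplexConjugate ComplexOrder ENNReal

namespace Pool.Agent.Helper17.QD

open Pool.Agent.Helper35.PM
open Pool.Agent.Helper68.QC (nq Bel InvB Intw)
open Pool.Agent.Helper20.QD (Fuch cj IsSU D DD SS dz dzb mob den)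

theorem pre_pre_symm {Γ : Type} [Group Γ] (φ : Γ ≃* Γ) (ρ : Γ →* SL) :
    pre φ.symm (pre φ ρ) = ρ := by
  ext γ : 1
  simp [pre]

theorem pre_symm_pre {Γ : Type} [Group Γ] (φ : Γ ≃* Γ) (ρ : Γ →* SL) :
    pre φ (pre φ.symm ρ) = ρ := by
  ext γ : 1
  simp [pre]

theorem cc_cc {Γ : Type} [Group Γ] (ρ : Γ →* SL) : cc (cc ρ) = ρ := by
  ext γ i j
  simp [cc]

theorem fin (hQFS : StQFS) (hBER : StBER) (hFUF : StFUF) (hFUS : StFUS) (hPRE : StPRE)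
    (hCCJ : StCCJ) (hFPC : StFPC) (hSPC : StSPC) (hMOV : StMOV) (hST1 : StST1) (hOPN : StOPN)
    (hMUM : StMUM) : StFIN := by
  intro g hg
  obtain ⟨s0, hs0, C1, hC1, h1⟩ := hST1 g hg
  obtain ⟨ε, hε, C2, hC2, h2⟩ := hOPN g hg
  obtain ⟨k0, hk0, hk1, h3⟩ := hMUM g hg s0 hs0 ε hε
  obtain ⟨C3, hC3, h4⟩ := hMOV k0 hk0 hk1
  refine ⟨C2 + C3 + C1, by positivity, fun U hU ρ hρ => ?_⟩
  have tri := (sy_ (SurfaceGroup g) U).2
  obtain ⟨B, σ, μ, k, hst⟩ := hBER g hg ⟨s0, hs0⟩ ρ hρ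
  have d0 : pressureDist U ρ (cj B ρ) ≤ 0 :=
    sInf_le (PressureLE.conj ρ (cj B ρ) B fun γ => Or.inl rfl)
  obtain ⟨σ', ρ', μ', k', hst', hthk, d1⟩ := h2 U hU σ (cj B ρ) μ k hst
  obtain ⟨φ, E, hE, hcnj⟩ := h3 σ' hst'.fs hthk
  have key : ∀ (s : SurfaceGroup g →* SL), Fuch s → Cnj σ' s E →
      (∀ (ρ1 : SurfaceGroup g →* SL) (ν : ℂ → ℂ) (l : ℝ), Sta s ν l ρ1 →
        pressureDist U ρ1 s ≤ ENNReal.ofReal C1) →
      ∃ σ : SurfaceGroup g →* SL, IsQF σ ∧ IsFuchsian σ ∧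
        pressureDist U ρ σ ≤ ENNReal.ofReal (C2 + C3 + C1) := by
    intro s hs hc hC
    obtain ⟨ν, l, ρ1, hst1, d2⟩ := h4 g hg U hU σ' s ρ' μ' k' E hst' hs hE hc
    have d3 := hC ρ1 ν l hst1
    refine ⟨s, hQFS g s s _ hs (nq (fun _ => 0)).isHomeomorph (hFUS.2 _ s hs).int, hFUF _ s hs, ?_⟩
    calc pressureDist U ρ s
        ≤ pressureDist U ρ (cj B ρ) + pressureDist U (cj B ρ) s := tri _ _ _
      _ ≤ 0 + (pressureDist U (cj B ρ) ρ' + (pressureDist U ρ' ρ1 + pressureDist U ρ1 s)) :=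
          add_le_add d0 ((tri _ ρ' _).trans (add_le_add le_rfl (tri _ _ _)))
      _ ≤ 0 + (ENNReal.ofReal C2 + (ENNReal.ofReal C3 + ENNReal.ofReal C1)) := by
          gcongr
      _ = ENNReal.ofReal (C2 + C3 + C1) := by
          rw [zero_add, ← ENNReal.ofReal_add hC3 hC1, ← ENNReal.ofReal_add hC2 (by positivity)]
          congr 1
          ring
  rcases hcnj with hc | hc
  · refine key (pre φ s0) ((hFPC _ s0 hs0).2.1 φ) hc ?_
    intro ρ1 ν l hst1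
    have a1 := (hSPC _ _ _ _ _ hst1).2.1 φ.symm
    rw [pre_pre_symm] at a1
    have a2 := h1 (fun τ => U (pre φ τ)) (hPRE g hg φ U hU).1 _ _ _ a1
    have a3 := (hPRE g hg φ U hU).2 (pre φ.symm ρ1) s0
    rw [pre_symm_pre] at a3
    exact a3.trans a2
  · refine key (pre φ (cc s0)) ((hFPC _ _ (hFPC _ s0 hs0).1).2.1 φ) hc ?_
    intro ρ1 ν l hst1
    have a1 := (hSPC _ _ _ _ _ hst1).2.1 φ.symm
    rw [pre_pre_symm] at a1
    have a1' := (hSPC _ _ _ _ _ a1).1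
    rw [cc_cc] at a1'
    have u1 := (hPRE g hg φ U hU).1
    have u2 := hCCJ g hg (fun τ => U (pre φ τ)) u1
    have a2 := h1 (fun τ => U (pre φ (cc τ))) u2.1 _ _ _ a1'
    have a3 := (hPRE g hg φ U hU).2 (pre φ.symm ρ1) (cc s0)
    rw [pre_symm_pre] at a3
    have a4 := u2.2 (cc (pre φ.symm ρ1)) s0
    rw [cc_cc] at a4
    exact a3.trans (a4.trans a2)

end Pool.Agent.Helper17.QD
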